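import Mathlib
import Pool.Graph.R_pool_sql_team_39128cda.H.MP_2e4b78_lc.A
import Pool.Graph.R_seed8.Helper220.ForceCH

set_option autoImplicit false

/-!
# Diamond: the sentence forced by `DiamondHolds`, and the form used by the ultrafilter modules
-/

namespace Pool.Agent.H83.Diamond

open Set Cardinal Ordinal
open Pool.Agent.Helper220.ForceCH (Om OmegaOnePreserved DiamondHolds)

/-- `C` is a closed unbounded subset of `ω₁` (the sentence named by `IsClubName`) -/
def Club (C : Om → Prop) : Prop :=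
  (∀ a : Om, ∃ b : Om, a < b ∧ C b) ∧
    ∀ a : Om, (∃ b, b < a) → (∀ b : Om, b < a → ∃ c : Om, (b < c ∧ c < a) ∧ C c) → C a

/-- diamond: the sentence which `DiamondHolds P` says is forced, evaluated in the universe -/
def Diamond : Prop :=
  ∃ A : Om → Om → Prop, ∀ S : Om → Prop, ∀ C : Om → Prop,
    Club C → ∃ a : Om, C a ∧ ∀ b : Om, b < a → (S b ↔ A a b)

theorem dia_of_diamond (h : Diamond) : Pool.Agent.H.MP_2e4b78_lc.Dia := by
  obtain ⟨A, hA⟩ := h
  let e : Om ≃o Pool.Agent.H.MP_77d395_lc.I :=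
    OrderIso.ofRelIsoLT (Classical.choice (Ordinal.type_eq.1 (by simp)))
  refine ⟨fun i => {x | x < i ∧ A (e.symm i) (e.symm x)}, fun Y E hE => ?_⟩
  have hclub : Club fun b => e b ∈ E := by
    refine ⟨fun a => ?_, fun a hn hc => ?_⟩
    · obtain ⟨b, hb⟩ := Pool.Agent.H.MP_6e75db_lc.bd (countable_singleton (e a))
      obtain ⟨c, hc, hbc⟩ := hE.isCofinal b
      refine ⟨e.symm c, ?_, by simpa using hc⟩
      rw [← e.lt_iff_lt]
      simpa using (hb _ rfl).trans_le hbc
    · refine hE.isLUB_mem (t := {x | x ∈ E ∧ x < e a}) (fun x hx => hx.1) ?_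
        ⟨fun x hx => hx.2.le, ?_⟩
      · obtain ⟨b, hb⟩ := hn
        obtain ⟨c, ⟨-, h2⟩, h3⟩ := hc b hb
        exact ⟨e c, h3, e.lt_iff_lt.2 h2⟩
      · intro y hy
        by_contra hlt
        have hlt := not_le.1 hlt
        obtain ⟨c, ⟨h1, h2⟩, h3⟩ := hc (e.symm y) (by rw [← e.lt_iff_lt]; simpa using hlt)
        have h4 : e c ≤ y := hy ⟨h3, e.lt_iff_lt.2 h2⟩
        have h5 : y < e c := by
          have := e.lt_iff_lt.2 h1
          simpa using this
        exact absurd h4 (not_le.2 h5)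
  obtain ⟨a, ha, hb⟩ := hA (fun b => e b ∈ Y) _ hclub
  refine ⟨e a, ?_, ha⟩
  ext x
  constructor
  · rintro ⟨hx, hx'⟩
    have hx' : x < e a := hx'
    refine ⟨hx', ?_⟩
    have := (hb (e.symm x) (by rw [← e.lt_iff_lt]; simpa using hx')).1 (by simpa using hx)
    simpa using this
  · rintro ⟨hx, hx'⟩
    refine ⟨?_, hx⟩
    have := (hb (e.symm x) (by rw [← e.lt_iff_lt]; simpa using hx)).2 (by simpa using hx')
    simpa using this

/-- some notion of forcing forces diamond and preserves `ω₁` -/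
theorem forced : ∃ (P : Type) (_ : Preorder P), Nonempty P ∧ ∀ p : P,
    p ∈ OmegaOnePreserved P ∧ p ∈ DiamondHolds P := by
  obtain ⟨P, hP, hne, h⟩ := Pool.Agent.Helper220.ForceCH.exists_forcing
  exact ⟨P, hP, hne, fun p => ⟨(h p).1, (h p).2.1⟩⟩

end Pool.Agent.H83.Diamond
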